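import Pool.Agent.Lib.MP_c7af3c_ag.EDGE.Iface

/-!
# MP_c7af3c_ag, project EDGE, module TAU (helper26)
The contracted determinants are bounded at every place.
-/

set_option autoImplicit false
set_option linter.unusedSectionVars false

namespace Pool.Agent.Edge.H26

open MvPolynomial WithZero Pool.Agent.Gen Pool.Agent.Sharp Pool.Agent.Lines.H75

section det
variable {R ι : Type} [CommRing R] [Fintype ι] [DecidableEq ι]

/-- the determinant with two variable columns -/
def dd (M : Matrix ι ι R) (k k' : ι) (u v : ι → R) : R :=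
  ((M.updateCol k u).updateCol k' v).det

theorem upd_comm (M : Matrix ι ι R) {k k' : ι} (h : k ≠ k') (u v : ι → R) :
    (M.updateCol k u).updateCol k' v = (M.updateCol k' v).updateCol k u := by
  ext a b
  simp only [Matrix.updateCol_apply]
  by_cases h1 : b = k'
  · by_cases h2 : b = k
    · exact absurd (h2.symm.trans h1) h
    · simp [h1, h2, Ne.symm h]
  · by_cases h2 : b = k
    · simp [h1, h2, h]
    · simp [h1, h2]

theorem dd_add_left (M : Matrix ι ι R) {k k' : ι} (h : k ≠ k') (u u' v : ι → R) :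
    dd M k k' (u + u') v = dd M k k' u v + dd M k k' u' v := by
  unfold dd
  rw [upd_comm M h, upd_comm M h, upd_comm M h, Matrix.det_updateCol_add]

theorem dd_smul_left (M : Matrix ι ι R) {k k' : ι} (h : k ≠ k') (s : R) (u v : ι → R) :
    dd M k k' (s • u) v = s * dd M k k' u v := by
  unfold dd
  rw [upd_comm M h, upd_comm M h, Matrix.det_updateCol_smul]

theorem dd_add_right (M : Matrix ι ι R) {k k' : ι} (u v v' : ι → R) :
    dd M k k' u (v + v') = dd M k k' u v + dd M k k' u v' := by
  unfold dd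
  rw [Matrix.det_updateCol_add]

theorem dd_smul_right (M : Matrix ι ι R) {k k' : ι} (s : R) (u v : ι → R) :
    dd M k k' u (s • v) = s * dd M k k' u v := by
  unfold dd
  rw [Matrix.det_updateCol_smul]

theorem dd_self (M : Matrix ι ι R) {k k' : ι} (h : k ≠ k') (u : ι → R) :
    dd M k k' u u = 0 := by
  unfold dd
  refine Matrix.det_zero_of_column_eq h fun a => ?_
  simp [Matrix.updateCol_apply]

theorem dd_swap (M : Matrix ι ι R) {k k' : ι} (h : k ≠ k') (u v : ι → R) :
    dd M k k' v u = - dd M k k' u v := by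
  have h1 := dd_self M h (u + v)
  rw [dd_add_left M h, dd_add_right, dd_add_right, dd_self M h, dd_self M h] at h1
  rw [zero_add, add_zero] at h1
  exact eq_neg_of_add_eq_zero_right h1

end det

section gen
variable {L : Type} [Field L] {n c : ℕ} {d : Fin c → ℕ} (D : DSys L n c d)
  (x : Fin (n + 1) → L) (j0 : Fin (n + 1))

/-- columns with arbitrary linear forms -/
noncomputable def colG {e : ℕ} (A : Fin e → TP L n c)
    (l l' : Fin e → MvPolynomial (Fin (n + 1)) L) :
    Unit ⊕ (Fin e ⊕ Fin e) → Fin (n + 1) → L :=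
  Sum.elim (fun _ => x) (Sum.elim (fun j => VT D x (mulT (A j) (l j)))
    fun j => VT D x (mulT (A j) (l' j)))

/-- the matrix -/
noncomputable def MG {e : ℕ} (ε : (Unit ⊕ (Fin e ⊕ Fin e)) ⊕ Fin c ≃ Fin (n + 1))
    (A : Fin e → TP L n c) (l l' : Fin e → MvPolynomial (Fin (n + 1)) L) (t : Fin (n + 1)) :
    Matrix ((Unit ⊕ (Fin e ⊕ Fin e)) ⊕ Fin c) ((Unit ⊕ (Fin e ⊕ Fin e)) ⊕ Fin c) L :=
  Matrix.of fun a k => colU D x (colG D x A l l') t k (ε a)

/-- the matrix after the change of one pair -/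
theorem MG_update {e : ℕ} (ε : (Unit ⊕ (Fin e ⊕ Fin e)) ⊕ Fin c ≃ Fin (n + 1))
    (A : Fin e → TP L n c) (l l' : Fin e → MvPolynomial (Fin (n + 1)) L) (t : Fin (n + 1))
    (s : Fin e) (p q : MvPolynomial (Fin (n + 1)) L) :
    MG D x ε A (Function.update l s p) (Function.update l' s q) t =
      ((MG D x ε A l l' t).updateCol (Sum.inl (Sum.inr (Sum.inl s)))
        fun a => VT D x (mulT (A s) p) (ε a)).updateCol (Sum.inl (Sum.inr (Sum.inr s)))
        fun a => VT D x (mulT (A s) q) (ε a) := by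
  ext a k
  rw [Matrix.updateCol_apply, Matrix.updateCol_apply]
  rcases k with ((_ | (j | j)) | m)
  · simp [MG, colU, colG]
  · by_cases h : j = s
    · subst h
      simp [MG, colU, colG]
    · simp [MG, colU, colG, h]
  · by_cases h : j = s
    · subst h
      simp [MG, colU, colG]
    · simp [MG, colU, colG, h]
  · simp [MG, colU]

theorem TT_eq {e : ℕ} (ε : (Unit ⊕ (Fin e ⊕ Fin e)) ⊕ Fin c ≃ Fin (n + 1))
    (A : Fin e → TP L n c) (i i' : Fin e → Fin (n + 1)) (s : Fin e) (b b' : Fin (n + 1)) :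
    TT D x j0 ε A (Function.update i s b) (Function.update i' s b') =
      dd (MG D x ε A (fun j => lf x j0 (i j)) (fun j => lf x j0 (i' j)) j0)
        (Sum.inl (Sum.inr (Sum.inl s))) (Sum.inl (Sum.inr (Sum.inr s)))
        (fun a => VT D x (mulT (A s) (lf x j0 b)) (ε a))
        (fun a => VT D x (mulT (A s) (lf x j0 b')) (ε a)) := by
  unfold dd
  rw [← MG_update]
  unfold TT MG
  congr 1
  ext a k
  simp only [Matrix.of_apply]
  congr 1
  unfold colE colG
  have h1 : ∀ (i : Fin e → Fin (n + 1)) (b : Fin (n + 1)),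
      (fun j => lf x j0 (Function.update i s b j)) =
      Function.update (fun j => lf x j0 (i j)) s (lf x j0 b) := by
    intro i b
    funext j
    by_cases h : j = s
    · subst h; simp
    · simp [h]
  rw [← h1, ← h1]

/-- the linear form adapted to the coordinate `a` -/
noncomputable def la (a b : Fin (n + 1)) : MvPolynomial (Fin (n + 1)) L :=
  X b - C (x b / x a) * X a

theorem lf_eq {a : Fin (n + 1)} (ha : x a ≠ 0) (b : Fin (n + 1)) :
    lf x j0 b = la x a b + (x b / x a) • lf x j0 a := by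
  unfold lf la
  rw [smul_eq_C_mul, mul_sub, ← mul_assoc, ← C_mul, div_mul_cancel₀ _ ha]
  ring

theorem hom_la (a b : Fin (n + 1)) : (la x a b).IsHomogeneous 1 :=
  (isHomogeneous_X L b).sub (hom_CX _ a)

theorem eval_la {a : Fin (n + 1)} (ha : x a ≠ 0) (b : Fin (n + 1)) : eval x (la x a b) = 0 := by
  unfold la
  rw [map_sub, map_mul, eval_X, eval_X, eval_C, div_mul_cancel₀ _ ha, sub_self]

variable {e : ℕ} (ε : (Unit ⊕ (Fin e ⊕ Fin e)) ⊕ Fin c ≃ Fin (n + 1))
    (A : Fin e → TP L n c) (i i' : Fin e → Fin (n + 1)) (s : Fin e)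

/-- the identity for `tau` -/
theorem tau_eq {a : Fin (n + 1)} (ha : x a ≠ 0) (b b' : Fin (n + 1)) :
    tau D x j0 ε A i i' s a b b' =
      x a * (MG D x ε A (Function.update (fun j => lf x j0 (i j)) s (la x a b))
        (Function.update (fun j => lf x j0 (i' j)) s (la x a b')) j0).det := by
  have hne : (Sum.inl (Sum.inr (Sum.inl s)) : (Unit ⊕ (Fin e ⊕ Fin e)) ⊕ Fin c) ≠
      Sum.inl (Sum.inr (Sum.inr s)) := by simp
  have hv : ∀ b, (fun k => VT D x (mulT (A s) (lf x j0 b)) (ε k)) =
      (fun k => VT D x (mulT (A s) (la x a b)) (ε k)) + (x b / x a) •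
        (fun k => VT D x (mulT (A s) (lf x j0 a)) (ε k)) := by
    intro b
    funext k
    rw [lf_eq x j0 ha b, VT_mulT_add, VT_mulT_smul]
    rfl
  rw [MG_update]
  change _ = x a * dd _ _ _ _ _
  unfold tau
  rw [TT_eq, TT_eq, TT_eq, hv b, hv b']
  generalize (fun k => VT D x (mulT (A s) (la x a b)) (ε k)) = P
  generalize (fun k => VT D x (mulT (A s) (la x a b')) (ε k)) = Q
  generalize (fun k => VT D x (mulT (A s) (lf x j0 a)) (ε k)) = R
  generalize MG D x ε A (fun j => lf x j0 (i j)) (fun j => lf x j0 (i' j)) j0 = M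
  have e1 : dd M (Sum.inl (Sum.inr (Sum.inl s))) (Sum.inl (Sum.inr (Sum.inr s)))
      (P + (x b / x a) • R) (Q + (x b' / x a) • R) =
      dd M (Sum.inl (Sum.inr (Sum.inl s))) (Sum.inl (Sum.inr (Sum.inr s))) P Q +
      (x b' / x a) * dd M (Sum.inl (Sum.inr (Sum.inl s))) (Sum.inl (Sum.inr (Sum.inr s))) P R +
      (x b / x a) * dd M (Sum.inl (Sum.inr (Sum.inl s))) (Sum.inl (Sum.inr (Sum.inr s))) R Q := by
    rw [dd_add_left _ hne, dd_add_right, dd_add_right, dd_smul_left _ hne, dd_smul_left _ hne,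
      dd_smul_right, dd_smul_right, dd_self _ hne]
    ring
  have e2 : dd M (Sum.inl (Sum.inr (Sum.inl s))) (Sum.inl (Sum.inr (Sum.inr s)))
      R (Q + (x b' / x a) • R) =
      dd M (Sum.inl (Sum.inr (Sum.inl s))) (Sum.inl (Sum.inr (Sum.inr s))) R Q := by
    rw [dd_add_right, dd_smul_right, dd_self _ hne]
    ring
  have e3 : dd M (Sum.inl (Sum.inr (Sum.inl s))) (Sum.inl (Sum.inr (Sum.inr s)))
      R (P + (x b / x a) • R) =
      - dd M (Sum.inl (Sum.inr (Sum.inl s))) (Sum.inl (Sum.inr (Sum.inr s))) P R := by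
    rw [dd_add_right, dd_smul_right, dd_self _ hne, dd_swap _ hne P R]
    ring
  rw [e1, e2, e3]
  generalize dd M (Sum.inl (Sum.inr (Sum.inl s))) (Sum.inl (Sum.inr (Sum.inr s))) P Q = pq
  generalize dd M (Sum.inl (Sum.inr (Sum.inl s))) (Sum.inl (Sum.inr (Sum.inr s))) P R = pr
  generalize dd M (Sum.inl (Sum.inr (Sum.inl s))) (Sum.inl (Sum.inr (Sum.inr s))) R Q = rq
  field_simp
  ring

theorem TT_swap (b b' : Fin (n + 1)) :
    TT D x j0 ε A (Function.update i s b') (Function.update i' s b) =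
      - TT D x j0 ε A (Function.update i s b) (Function.update i' s b') := by
  have hne : (Sum.inl (Sum.inr (Sum.inl s)) : (Unit ⊕ (Fin e ⊕ Fin e)) ⊕ Fin c) ≠
      Sum.inl (Sum.inr (Sum.inr s)) := by simp
  rw [TT_eq, TT_eq, dd_swap _ hne]

theorem tau_rot (a b b' : Fin (n + 1)) :
    tau D x j0 ε A i i' s a b b' = tau D x j0 ε A i i' s b b' a := by
  unfold tau
  rw [TT_swap D x j0 ε A i i' s a b', TT_swap D x j0 ε A i i' s a b]
  ring

/-- the local estimate, `a` the largest of the three coordinates -/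
theorem tau_bound (hj0 : x j0 = 1) (h0 : ∀ m, eval x (D.F m) = 0)
    (hd : ∑ m, d m = 3 * e + 1 + c) (hA : ∀ j, IT d (A j)) {a b b' : Fin (n + 1)}
    (ha : x a ≠ 0) (v : Valuation L ℤᵐ⁰) (M : ℤᵐ⁰)
    (hdel : ∀ m I, I.degree = d m → ∀ f, v f ≤ 1 → v (D.del m I f) ≤ M)
    (hb : v (x b) ≤ v (x a)) (hb' : v (x b') ≤ v (x a))
    {iv : Fin (n + 1)} (hle : ∀ j, v (x j) ≤ v (x iv)) :
    v (tau D x j0 ε A i i' s a b b') ≤ M ^ (2 * e + c) := by
  classical
  have hiv1 : 1 ≤ v (x iv) := by
    have h := hle j0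
    rwa [hj0, map_one] at h
  have hiv : x iv ≠ 0 := fun h => by
    rw [h, map_zero] at hiv1
    exact absurd hiv1 (by simp)
  have hcard : Fintype.card (Unit ⊕ (Fin e ⊕ Fin e)) + c = n + 1 := by
    have h := Fintype.card_congr ε
    rw [Fintype.card_sum, Fintype.card_fin, Fintype.card_fin] at h
    exact h
  have hn : 1 + (e + e) + c = n + 1 := by
    simpa only [Fintype.card_sum, Fintype.card_fin, Fintype.card_unit] using hcard
  set l : Fin e → MvPolynomial (Fin (n + 1)) L :=
    Function.update (fun j => lf x j0 (i j)) s (la x a b) with hl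
  set l' : Fin e → MvPolynomial (Fin (n + 1)) L :=
    Function.update (fun j => lf x j0 (i' j)) s (la x a b') with hl'
  -- the linear forms
  have hlh : ∀ j, (l j).IsHomogeneous 1 ∧ eval x (l j) = 0 := by
    intro j
    by_cases h : j = s
    · subst h
      rw [hl, Function.update_self]
      exact ⟨hom_la x a b, eval_la x ha b⟩
    · rw [hl, Function.update_of_ne h]
      exact ⟨hom_lf x j0 _, eval_lf x hj0 _⟩
  have hlh' : ∀ j, (l' j).IsHomogeneous 1 ∧ eval x (l' j) = 0 := by
    intro j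
    by_cases h : j = s
    · subst h
      rw [hl', Function.update_self]
      exact ⟨hom_la x a b', eval_la x ha b'⟩
    · rw [hl', Function.update_of_ne h]
      exact ⟨hom_lf x j0 _, eval_lf x hj0 _⟩
  have hker : ∀ k m, ∑ p, eval x (pderiv p (D.F m)) * colG D x A l l' k p = 0 := by
    rintro (_ | (j | j)) m
    · exact grad_x D x h0 m
    · exact grad_mulT D x h0 (hA j).1 (hlh j).1 (hlh j).2 m
    · exact grad_mulT D x h0 (hA j).1 (hlh' j).1 (hlh' j).2 m
  have hdet := Lines.H19.detU' D x h0 (colG D x A l l') hker hcard hj0 ε iv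
  -- the pairs
  have hpairs : ∀ j : Fin e, ∃ (N N' : Fin (n + 1) → L) (σ σ' : ℤᵐ⁰) (r r' : ℕ),
      1 ≤ r ∧ 1 ≤ r' ∧
      (VT D x (mulT (A j) (l j)) - x iv • N ∈
        Submodule.span L ({x} ∪ {u | r' < r ∧ VT D x (mulT (A j) (l' j)) = u})) ∧
      (VT D x (mulT (A j) (l' j)) - x iv • N' ∈
        Submodule.span L ({x} ∪ {u | r < r' ∧ VT D x (mulT (A j) (l j)) = u})) ∧
      (∀ a, v (N a) ≤ σ) ∧ (∀ a, v (N' a) ≤ σ') ∧
        σ * σ' ≤ (if j = s then 1 else v (x iv)) * (M * M) := by
    intro j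
    by_cases h : j = s
    · subst h
      have e1 : l j = la x a b := by rw [hl, Function.update_self]
      have e2 : l' j = la x a b' := by rw [hl', Function.update_self]
      have hq : ∀ b : Fin (n + 1), v (x b) ≤ v (x a) → CB v (la x a b) 1 := by
        intro b hb
        refine CB.sub v (CB_X v b) ((CB_CX v _ a).mono v ?_)
        rw [map_div₀]
        exact div_le_one_of_le₀ hb zero_le
      obtain ⟨N, hN, hN'⟩ := VT_red D x hdel hiv hle (hA j).1 (fun m => (hA j).cb v m)
        (hom_la x a b) (hq b hb)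
      obtain ⟨N2, hN2, hN2'⟩ := VT_red D x hdel hiv hle (hA j).1 (fun m => (hA j).cb v m)
        (hom_la x a b') (hq b' hb')
      refine ⟨N, N2, 1 * M, 1 * M, 1, 1, le_rfl, le_rfl, ?_, ?_, hN', hN2', ?_⟩
      · rw [e1]
        exact Submodule.span_mono (by simp) hN
      · rw [e2]
        exact Submodule.span_mono (by simp) hN2
      · rw [if_pos rfl]
        simp
    · have e1 : l j = lf x j0 (i j) := by rw [hl, Function.update_of_ne h]
      have e2 : l' j = lf x j0 (i' j) := by rw [hl', Function.update_of_ne h]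
      rw [e1, e2, if_neg h]
      rcases le_total (v (x (i' j))) (v (x (i j))) with hii | hii
      · obtain ⟨N, N', σ, σ', q1, q2, q3, q4, q5⟩ :=
          pair_red D x hdel (j0 := j0) hiv hiv1 hle (hA j).1 (fun m => (hA j).cb v m) hii
        refine ⟨N, N', σ, σ', 1, 2, le_rfl, one_le_two, ?_, ?_, q3, q4, q5⟩
        · exact Submodule.span_mono (by simp) q1
        · refine Submodule.span_mono ?_ q2
          rintro u (rfl | rfl)
          · left; rfl
          · right; exact ⟨one_lt_two, rfl⟩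
      · obtain ⟨N, N', σ, σ', q1, q2, q3, q4, q5⟩ :=
          pair_red D x hdel (j0 := j0) hiv hiv1 hle (hA j).1 (fun m => (hA j).cb v m) hii
        refine ⟨N', N, σ', σ, 2, 1, one_le_two, le_rfl, ?_, ?_, q4, q3, by
          rw [mul_comm]; exact q5⟩
        · refine Submodule.span_mono ?_ q2
          rintro u (rfl | rfl)
          · left; rfl
          · right; exact ⟨one_lt_two, rfl⟩
        · exact Submodule.span_mono (by simp) q1
  choose NP NP' σP σP' rP rP' q1 q2 q3 q4 q5 q6 q7 using hpairs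
  have key := local_bound D x v M hdel hiv hle (colG D x A l l') (Sum.inl ()) rfl
    (Sum.elim (fun _ => 0) (Sum.elim rP rP'))
    (Sum.elim (fun _ => (x iv)⁻¹ • x) (Sum.elim NP NP')) (fun _ => 1)
    (Sum.elim (fun _ => 1) (Sum.elim σP σP')) ?_ ?_ ε _ hdet
  · simp only [Fintype.prod_sum_type, Sum.elim_inl, Sum.elim_inr, map_one, one_mul,
      Finset.prod_const_one] at key
    rw [← Finset.prod_mul_distrib] at key
    have hP : ∏ j, σP j * σP' j ≤ v (x iv) ^ (e - 1) * (M * M) ^ e := by
      calc ∏ j, σP j * σP' j ≤ ∏ j : Fin e, ((if j = s then 1 else v (x iv)) * (M * M)) :=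
            Finset.prod_le_prod' fun j _ => q7 j
        _ = (∏ j : Fin e, (if j = s then 1 else v (x iv))) * (M * M) ^ e := by
            rw [Finset.prod_mul_distrib, Finset.prod_const, Finset.card_univ, Fintype.card_fin]
        _ = _ := by
            congr 1
            rw [← Finset.mul_prod_erase Finset.univ _ (Finset.mem_univ s), if_pos rfl, one_mul,
              Finset.prod_congr rfl fun j hj => if_neg (Finset.ne_of_mem_erase hj),
              Finset.prod_const, Finset.card_erase_of_mem (Finset.mem_univ s), Finset.card_univ,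
              Fintype.card_fin]
    rw [tau_eq D x j0 ε A i i' s ha b b', map_mul]
    have hs : v (x iv) ^ (∑ m, d m) ≠ 0 :=
      pow_ne_zero _ ((map_ne_zero v).2 hiv)
    have hs' : 0 < v (x iv) ^ (∑ m, d m) := zero_lt_iff.2 hs
    have h2 : v (x a) * v (MG D x ε A l l' j0).det * v (x iv) ^ (∑ m, d m) ≤
        M ^ (2 * e + c) * v (x iv) ^ (∑ m, d m) := by
      have he : 1 ≤ e := by
        have := s.2
        omega
      calc v (x a) * v (MG D x ε A l l' j0).det * v (x iv) ^ (∑ m, d m)
          = v (x a) * (v (MG D x ε A l l' j0).det * v (x iv) ^ (∑ m, d m)) := mul_assoc _ _ _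
        _ ≤ v (x iv) * (v (x iv) ^ (n + 1) * (∏ j, σP j * σP' j) * M ^ c) :=
            mul_le_mul' (hle a) key
        _ ≤ v (x iv) * (v (x iv) ^ (n + 1) * (v (x iv) ^ (e - 1) * (M * M) ^ e) * M ^ c) :=
            mul_le_mul' le_rfl (mul_le_mul' (mul_le_mul' le_rfl hP) le_rfl)
        _ = M ^ (2 * e + c) * v (x iv) ^ (1 + (n + 1) + (e - 1)) := by
            have e1 : M ^ (2 * e + c) = (M * M) ^ e * M ^ c := by
              rw [pow_add, pow_mul, pow_two]
            have e2 : v (x iv) ^ (1 + (n + 1) + (e - 1)) =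
                v (x iv) * v (x iv) ^ (n + 1) * v (x iv) ^ (e - 1) := by
              rw [pow_add _ (1 + (n + 1)) (e - 1), pow_add _ 1 (n + 1), pow_one]
            rw [e1, e2]
            generalize v (x iv) ^ (n + 1) = y1
            generalize v (x iv) ^ (e - 1) = y2
            ac_rfl
        _ = M ^ (2 * e + c) * v (x iv) ^ (∑ m, d m) := by
            congr 2
            omega
    exact (mul_le_mul_iff_left₀ hs').1 h2
  · rintro (_ | (j | j))
    · change x - (1 * x iv) • ((x iv)⁻¹ • x) ∈ _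
      rw [one_mul, smul_smul, mul_inv_cancel₀ hiv, one_smul, sub_self]
      exact Submodule.zero_mem _
    · change VT D x (mulT (A j) (l j)) - (1 * x iv) • NP j ∈ _
      rw [one_mul]
      refine Submodule.span_mono ?_ (q3 j)
      rintro u (rfl | ⟨hr, rfl⟩)
      · exact ⟨Sum.inl (), q1 j, rfl⟩
      · exact ⟨Sum.inr (Sum.inr j), hr, rfl⟩
    · change VT D x (mulT (A j) (l' j)) - (1 * x iv) • NP' j ∈ _
      rw [one_mul]
      refine Submodule.span_mono ?_ (q4 j)
      rintro u (rfl | ⟨hr, rfl⟩)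
      · exact ⟨Sum.inl (), q2 j, rfl⟩
      · exact ⟨Sum.inr (Sum.inl j), hr, rfl⟩
  · rintro (_ | (j | j)) b
    · exact v_smul_le x hiv hle b
    · exact q5 j b
    · exact q6 j b

end gen

/-- module TAU -/
theorem tauS : TauStatement := by
  intro L _ _ n c e d D x j0 hj0 h0 hd ε A hA i i' s a b b' S B hB p
  set v := S.v p with hv
  set M : ℤᵐ⁰ := exp (B p : ℤ) with hMdef
  have hM : 1 ≤ M := by
    rw [hMdef, ← exp_zero]
    exact WithZero.exp_le_exp.2 (by positivity)
  have hdel : ∀ m I, I.degree = d m → ∀ f, v f ≤ 1 → v (D.del m I f) ≤ M :=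
    fun m I hI f hf => hB.del p m I hI f hf
  obtain ⟨iv, hiv⟩ := S.exists_mx x p
  have hle : ∀ j, v (x j) ≤ v (x iv) := fun j => by rw [hv, hiv]; exact S.le_mx x p j
  have hn : 1 + (e + e) + c = n + 1 := by
    have h := Fintype.card_congr ε
    simpa only [Fintype.card_sum, Fintype.card_fin, Fintype.card_unit] using h
  have hexp : M ^ (2 * e + c) ≤ M ^ (2 * n + 2) := pow_le_pow_right' hM (by omega)
  refine le_trans ?_ hexp
  have main : ∀ a b b' : Fin (n + 1), v (x b) ≤ v (x a) → v (x b') ≤ v (x a) →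
      v (tau D x j0 ε A i i' s a b b') ≤ M ^ (2 * e + c) := by
    intro a b b' hb hb'
    by_cases ha : x a = 0
    · have hxb : x b = 0 := by
        rw [ha, map_zero] at hb
        exact (map_eq_zero v).1 (le_antisymm hb zero_le)
      have hxb' : x b' = 0 := by
        rw [ha, map_zero] at hb'
        exact (map_eq_zero v).1 (le_antisymm hb' zero_le)
      unfold tau
      rw [ha, hxb, hxb', zero_mul, zero_mul, zero_mul, sub_zero, add_zero, map_zero]
      exact zero_le
    · exact tau_bound D x j0 ε A i i' s hj0 h0 hd hA ha v M hdel hb hb' hle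
  rcases le_total (v (x b)) (v (x a)) with h1 | h1
  · rcases le_total (v (x b')) (v (x a)) with h2 | h2
    · exact main a b b' h1 h2
    · rw [tau_rot, tau_rot]
      exact main b' a b h2 (h1.trans h2)
  · rcases le_total (v (x b')) (v (x b)) with h2 | h2
    · rw [tau_rot]
      exact main b b' a h2 h1
    · rw [tau_rot, tau_rot]
      exact main b' a b (h1.trans h2) h2

end Pool.Agent.Edge.H26
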